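import Pool.Agent.E8helper20.CT3.Stm
import Pool.Agent.Y100.CT.CUB3

/-!
# Project CT3: local solutions of the diagonal cubic at three (S_CUB33)
-/

set_option autoImplicit false
set_option linter.unusedSectionVars false
set_option linter.unusedVariables false

namespace Pool.Agent.E8helper87.CT3

open Pool.Agent.Y692.QS
open Pool.Agent.Y715.T.Gi Pool.Agent.Y715.T.Nr Pool.Agent.Y715.T.Df Pool.Agent.Y715.T.Ell
open Pool.Agent.Y715.T.Red Pool.Agent.Y715.T.Thr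
open Pool.Agent.Y703.CT
open Pool.Agent.Y100.CT.CUB3 (cube_res root norm_nine)

/-- **CT3-CUB33** -/
theorem t_CUB33 : Pool.Agent.E8helper20.CT3.S_CUB33 := by
  intro _ I hI B D hB hy hD
  obtain ⟨b, hb⟩ := hB
  obtain ⟨d, hd⟩ := hD
  have eB : B = 1 + 3 * b := by linear_combination hb
  have eD : D = 1 + 3 * d := by linear_combination hd
  have hfix : ∀ z : Ei, ∀ τ : Au 3, τ I = I → τ (ev I hI z) = ev I hI z :=
    fun z τ hτ => ev_fix hI hτ z
  have hbim : (3 : ℤ) ∣ b.im := by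
    have r3 : (3 : Ei).re = 3 := rfl
    have i3 : (3 : Ei).im = 0 := rfl
    have i1 : (1 : Ei).im = 0 := rfl
    have him : B.im = 3 * b.im := by
      rw [eB, QuadraticAlgebra.im_add, mul_im, r3, i3, i1]
      ring
    have h1 : B.im / 3 = b.im := by omega
    have h2 : ((B.im / 3 : ℤ) : ZMod 3) = 0 := hy
    rw [h1] at h2
    exact (ZMod.intCast_zmod_eq_zero_iff_dvd b.im 3).1 h2
  obtain ⟨n, hn⟩ := hbim
  obtain ⟨m, k, hk, hm⟩ : ∃ m k : ℤ, (k = 0 ∨ k = 1 ∨ k = -1) ∧ b.re = 3 * m + k := by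
    rcases (by omega : b.re % 3 = 0 ∨ b.re % 3 = 1 ∨ b.re % 3 = 2) with
      h | h | h
    · exact ⟨b.re / 3, 0, Or.inl rfl, by omega⟩
    · exact ⟨b.re / 3, 1, Or.inr (Or.inl rfl), by omega⟩
    · exact ⟨b.re / 3 + 1, -1, Or.inr (Or.inr rfl), by omega⟩
  obtain ⟨u, hu⟩ : ∃ u : Ei, u = (k : Ei) := ⟨_, rfl⟩
  have hu' : u = 0 ∨ u = 1 ∨ u = -1 := by
    rcases hk with rfl | rfl | rfl
    · left; rw [hu]; simp
    · right; left; rw [hu]; simp
    · right; right; rw [hu]; simp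
  have hu3 := cube_res hu'
  obtain ⟨b', hb'⟩ : ∃ b' : Ei, b' = (m : Ei) + (n : Ei) * w := ⟨_, rfl⟩
  have eb : b = u + 3 * b' := by
    have h1 : ((b.re : ℤ) : Ei) = 3 * (m : Ei) + (k : Ei) := by
      exact_mod_cast congrArg (Int.cast : ℤ → Ei) hm
    have h2 : ((b.im : ℤ) : Ei) = 3 * (n : Ei) := by
      exact_mod_cast congrArg (Int.cast : ℤ → Ei) hn
    rw [hu, hb']
    conv_lhs => rw [eta b]
    linear_combination h1 + w * h2
  obtain ⟨z, hz⟩ : ∃ z, B ^ 2 + B * (3 * D) * u ^ 3 = 1 + 9 * z := by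
    refine ⟨b ^ 2 + u * (b + d + 3 * b * d) + u + 2 * b', ?_⟩
    rw [eB, eD]
    linear_combination 3 * (1 + 3 * b) * (1 + 3 * d) * hu3 + 6 * eb
  obtain ⟨s, hs, hs0, hsf⟩ := root hI (c := ev I hI (1 + 9 * z)) (hfix _) (by
    rw [map_add, map_one, add_sub_cancel_left]
    exact norm_nine hI z)
  refine ⟨s, 1, ev I hI u, ⟨fun τ hτ => ⟨hsf τ hτ, map_one τ, hfix _ τ hτ⟩, Or.inl hs0, ?_⟩⟩
  rw [hs, ← hz, map_add, map_mul, map_mul, map_pow, map_pow]
  ring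

end Pool.Agent.E8helper87.CT3
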