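import Pool.Agent.E8helper20.CT3.Stm
import Pool.Agent.Y180.CT.Loc3

/-!
# Project CT3: the local condition at the prime above three (S_LOC33)
-/

set_option autoImplicit false
set_option linter.unusedSectionVars false
set_option linter.unusedVariables false

namespace Pool.Agent.E8helper87.CT3

open WeierstrassCurve
open Pool.Agent.Y692.QS
open Pool.Agent.Y715.T.Gi Pool.Agent.Y715.T.Nr Pool.Agent.Y715.T.Df Pool.Agent.Y715.T.Ell
open Pool.Agent.Y715.T.Red Pool.Agent.Y715.T.Thr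
open Pool.Agent.Y703.CT
open Pool.Agent.Y180.CT

open scoped Classical

variable {I : PadicAlgCl 3}

/-- the even power of the norm is an integral power of three -/
lemma six_val (hI : I ^ 2 + I + 1 = 0) {x : PadicAlgCl 3} (hx : x ∈ Kl I) (hx0 : x ≠ 0) :
    ∃ m : ℤ, ‖x‖ ^ 6 = (3 : ℝ) ^ (3 * m) := by
  obtain ⟨m, hm⟩ := val hI (Kl_le hx) hx0
  refine ⟨m, ?_⟩
  have e : ‖x‖ ^ 6 = (‖x‖ ^ 2) ^ 3 := by ring
  rw [e, hm, mul_comm 3 m, zpow_mul]
  norm_cast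

lemma lt_of_zpow {m n : ℤ} (h : (3 : ℝ) ^ m < (3 : ℝ) ^ n) : m < n :=
  (zpow_lt_zpow_iff_right₀ (by norm_num : (1 : ℝ) < 3)).1 h

/-- **the ordinate is a cube times a power of `3 (1 + 3 d)` modulo `1 + 3 O`** -/
theorem ord_cube33 (hI : I ^ 2 + I + 1 = 0) {d X Y : PadicAlgCl 3} (hd : d ∈ Kl I)
    (hd1 : ‖d‖ ≤ 1) (hX : X ∈ Kl I) (hY : Y ∈ Kl I) (hY0 : Y ≠ 0)
    (he : Y ^ 2 + 3 * (1 + 3 * d) * Y = X ^ 3) :
    ∃ c : ℕ, ∃ V ∈ Kl I, V ≠ 0 ∧ ∃ t ∈ Kl I, ‖t‖ ≤ 1 ∧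
      Y = (3 * (1 + 3 * d)) ^ c * V ^ 3 * (1 + 3 * t) := by
  have h3n := norm_three'
  have hDn := norm_one_add hd1
  have hD0 := one_add_ne hd1
  have h30 : (3 : PadicAlgCl 3) ≠ 0 := three_ne_zero
  obtain ⟨δ, hδ⟩ : ∃ δ, δ = 3 * (1 + 3 * d) := ⟨_, rfl⟩
  have hδn : ‖δ‖ = 3⁻¹ := by rw [hδ, norm_mul, hDn, mul_one, h3n]
  have hδ0 : δ ≠ 0 := by rw [hδ]; exact mul_ne_zero h30 hD0
  have hδm : δ ∈ Kl I := by
    rw [hδ]
    exact mul_mem three_memK (add_mem (one_mem _) (mul_mem three_memK hd))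
  rw [← hδ] at he ⊢
  have hYp : 0 < ‖Y‖ := norm_pos_iff.2 hY0
  rcases lt_trichotomy ‖Y‖ 3⁻¹ with h1 | h1 | h1
  · -- `Y` is small
    have h2 : ‖Y + δ‖ = 3⁻¹ := by
      rw [add_comm, eq_of_lt, hδn]
      rwa [hδn]
    have h3 : ‖Y‖ * 3⁻¹ = ‖X‖ ^ 3 := by
      rw [← norm_pow, ← he, ← h2, ← norm_mul]
      congr 1
      ring
    have hX0 : X ≠ 0 := by
      rintro rfl
      rw [norm_zero, zero_pow three_ne_zero] at h3
      have : 0 < ‖Y‖ * 3⁻¹ := by positivity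
      linarith
    obtain ⟨m, hm⟩ := six_val hI hX hX0
    have h4 : ‖Y‖ ^ 2 = (3 : ℝ) ^ (3 * m + 2) := by
      rw [zpow_add₀ (by norm_num), ← hm]
      have e : ‖X‖ ^ 6 = (‖X‖ ^ 3) ^ 2 := by ring
      rw [e, ← h3]
      norm_num
      ring
    have h5 : ‖Y‖ ^ 2 < (3 : ℝ) ^ (-2 : ℤ) := by
      have e : (3 : ℝ) ^ (-2 : ℤ) = (3⁻¹) ^ 2 := by norm_num
      rw [e]
      exact pow_lt_pow_left₀ h1 hYp.le two_ne_zero
    rw [h4] at h5
    have h6 := lt_of_zpow h5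
    have h7 : ‖Y‖ ≤ 9⁻¹ := by
      have e : ‖Y‖ ^ 2 ≤ (9⁻¹ : ℝ) ^ 2 := by
        rw [h4]
        have e : ((9⁻¹ : ℝ)) ^ 2 = (3 : ℝ) ^ (-4 : ℤ) := by norm_num
        rw [e]
        exact zpow_le_zpow_right₀ (by norm_num) (by omega)
      exact (pow_le_pow_iff_left₀ hYp.le (by norm_num) two_ne_zero).1 e
    have h8 : ‖Y / (3 * δ)‖ ≤ 1 := by
      rw [norm_div, norm_mul, h3n, hδn, div_le_one (by norm_num)]
      norm_num
      linarith
    obtain ⟨t, ht, ht1, e⟩ := inv_exK (div_mem hY (mul_mem three_memK hδm)) h8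
    refine ⟨2, X / δ, div_mem hX hδm, div_ne_zero hX0 hδ0, t, ht, ht1, ?_⟩
    have e1 : X ^ 3 = Y * δ * (1 + 3 * (Y / (3 * δ))) := by
      rw [← he]
      field_simp
      ring
    have e2 : δ ^ 2 * (X / δ) ^ 3 * (1 + 3 * t) = X ^ 3 / δ * (1 + 3 * t) := by
      field_simp
    rw [e2, e1]
    have e3 : Y * δ * (1 + 3 * (Y / (3 * δ))) / δ * (1 + 3 * t) =
        Y * ((1 + 3 * (Y / (3 * δ))) * (1 + 3 * t)) := by
      field_simp
    rw [e3, e, mul_one]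
  · -- `Y` and `δ` have the same norm
    have h2 : ‖Y + δ‖ ≤ 3⁻¹ := by
      refine (PadicAlgCl.isNonarchimedean 3 Y δ).trans ?_
      rw [h1, hδn, max_self]
    have h9 : ‖Y + δ‖ ≤ 9⁻¹ := by
      by_cases h0 : Y + δ = 0
      · rw [h0, norm_zero]
        norm_num
      have h3 : ‖Y + δ‖ * 3⁻¹ = ‖X‖ ^ 3 := by
        rw [← norm_pow, ← he, ← h1, ← norm_mul]
        congr 1
        ring
      have hX0 : X ≠ 0 := by
        rintro rfl
        rw [norm_zero, zero_pow three_ne_zero] at h3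
        have h5 : 0 < ‖Y + δ‖ := norm_pos_iff.2 h0
        have : 0 < ‖Y + δ‖ * 3⁻¹ := by positivity
        linarith
      obtain ⟨m, hm⟩ := six_val hI hX hX0
      have h4 : ‖Y + δ‖ ^ 2 = (3 : ℝ) ^ (3 * m + 2) := by
        rw [zpow_add₀ (by norm_num), ← hm]
        have e : ‖X‖ ^ 6 = (‖X‖ ^ 3) ^ 2 := by ring
        rw [e, ← h3]
        norm_num
        ring
      have h5 : ‖Y + δ‖ ^ 2 ≤ (3 : ℝ) ^ (-2 : ℤ) := by
        have e : (3 : ℝ) ^ (-2 : ℤ) = (3⁻¹) ^ 2 := by norm_num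
        rw [e]
        exact pow_le_pow_left₀ (norm_nonneg _) h2 2
      rw [h4] at h5
      have h6 : 3 * m + 2 ≤ -2 := (zpow_le_zpow_iff_right₀ (by norm_num : (1 : ℝ) < 3)).1 h5
      have e : ‖Y + δ‖ ^ 2 ≤ (9⁻¹ : ℝ) ^ 2 := by
        rw [h4]
        have e : ((9⁻¹ : ℝ)) ^ 2 = (3 : ℝ) ^ (-4 : ℤ) := by norm_num
        rw [e]
        exact zpow_le_zpow_right₀ (by norm_num) (by omega)
      exact (pow_le_pow_iff_left₀ (norm_nonneg _) (by norm_num) two_ne_zero).1 e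
    refine ⟨1, -1, neg_mem (one_mem _), neg_ne_zero.2 one_ne_zero, -((Y + δ) / (3 * δ)),
      neg_mem (div_mem (add_mem hY hδm) (mul_mem three_memK hδm)), ?_, ?_⟩
    · rw [norm_neg, norm_div, norm_mul, h3n, hδn, div_le_one (by norm_num)]
      norm_num
      linarith
    · field_simp
      ring
  · -- `Y` is large
    have h2 : ‖Y ^ 2 + δ * Y‖ = ‖Y‖ ^ 2 := by
      rw [eq_of_lt, norm_pow]
      rw [norm_mul, hδn, norm_pow]
      nlinarith
    have h3 : ‖Y‖ ^ 2 = ‖X‖ ^ 3 := by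
      rw [← norm_pow X, ← he, h2]
    obtain ⟨m, hm⟩ := cube_val' hI hY hX hY0 h3
    have h4 : 1 ≤ ‖Y‖ := by
      have h5 : (3 : ℝ) ^ (-2 : ℤ) < ‖Y‖ ^ 2 := by
        have e : (3 : ℝ) ^ (-2 : ℤ) = (3⁻¹) ^ 2 := by norm_num
        rw [e]
        exact pow_lt_pow_left₀ h1 (by norm_num) two_ne_zero
      rw [hm] at h5
      have h6 := lt_of_zpow h5
      have h7 : (1 : ℝ) ^ 2 ≤ ‖Y‖ ^ 2 := by
        rw [hm, one_pow]
        exact one_le_zpow₀ (by norm_num) (by omega)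
      exact (pow_le_pow_iff_left₀ zero_le_one hYp.le two_ne_zero).1 h7
    have hX0 : X ≠ 0 := by
      rintro rfl
      rw [norm_zero, zero_pow three_ne_zero] at h3
      exact hY0 (norm_eq_zero.1 (pow_eq_zero_iff two_ne_zero |>.1 h3))
    refine ⟨0, Y / X, div_mem hY hX, div_ne_zero hY0 hX0, δ / (3 * Y),
      div_mem hδm (mul_mem three_memK hY), ?_, ?_⟩
    · rw [norm_div, norm_mul, hδn, h3n, div_le_one (by positivity)]
      nlinarith
    · have hX3 : X ^ 3 ≠ 0 := pow_ne_zero 3 hX0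
      rw [div_pow, ← he]
      rw [← he] at hX3
      have h8 : 1 + 3 * (δ / (3 * Y)) = (Y ^ 2 + δ * Y) / Y ^ 2 := by
        field_simp
      rw [h8, pow_zero, one_mul, div_mul_div_cancel₀ hX3]
      field_simp

section final

variable {i₀ : QB} {hi : i₀ ^ 2 + i₀ + 1 = 0} {D : Ei} {u : QB} {a h : GK i₀ → ZMod 3}
  {ι : QB →ₐ[ℚ] PadicAlgCl 3} {R : Pt (PadicAlgCl 3)}

/-- `- lam ^ 2 = 3` -/
lemma ev_lam_sq (hI : I ^ 2 + I + 1 = 0) : ev I hI lam ^ 2 = -3 := by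
  rw [← map_pow, lam_sq, map_neg, map_ofNat]

/-- the result for a generator, with a power of `3 (1 + 3 d)` -/
lemma fin_of33 (hi : i₀ ^ 2 + i₀ + 1 = 0) (ι : QB →ₐ[ℚ] PadicAlgCl 3) {v q : Ei} {g : ℕ}
    (hv : IsUnit v) {V t d : PadicAlgCl 3} (hV : V ∈ Kl (ι i₀)) (ht : t ∈ Kl (ι i₀))
    (ht1 : ‖t‖ ≤ 1) (hd : d ∈ Kl (ι i₀)) (hd1 : ‖d‖ ≤ 1) (c : ℕ)
    (e : ev (ι i₀) (iota_sq' hi ι) (v * lam ^ g * (1 + 3 * q)) * (3 * (1 + 3 * d)) ^ c =
      V ^ 3 * (1 + 3 * t)) : v = 1 ∨ v = -1 := by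
  have hI := iota_sq' hi ι
  have hl := ev_lam_sq hI
  obtain ⟨d', hd', hd1', ed⟩ := inv_exK hd hd1
  -- the powers of `1 + 3 d'` are of the same form
  have hpow : ∀ n : ℕ, ∃ s ∈ Kl (ι i₀), ‖s‖ ≤ 1 ∧ (1 + 3 * d') ^ n = 1 + 3 * s := by
    intro n
    induction n with
    | zero => exact ⟨0, zero_mem _, by rw [norm_zero]; exact zero_le_one, by ring⟩
    | succ n ih =>
      obtain ⟨s, hs, hs1, es⟩ := ih
      refine ⟨s + d' + 3 * (s * d'), add_mem (add_mem hs hd') (mul_mem three_memK (mul_mem hs hd')),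
        ?_, ?_⟩
      · refine add_le (add_le hs1 hd1') ?_
        rw [norm_mul, norm_three']
        have := mul_le hs1 hd1'
        linarith
      · rw [pow_succ, es]
        ring
  obtain ⟨s, hs, hs1, es⟩ := hpow c
  have hts : (1 + 3 * t) * (1 + 3 * s) = 1 + 3 * (t + s + 3 * (t * s)) := by ring
  have key : ev (ι i₀) hI (v * lam ^ (g + 2 * c) * (1 + 3 * q)) =
      ((-1) ^ c * V) ^ 3 * (1 + 3 * (t + s + 3 * (t * s))) := by
    have h3 : (3 : PadicAlgCl 3) ≠ 0 := three_ne_zero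
    have hD0 := one_add_ne hd1
    have h1 : ev (ι i₀) hI (v * lam ^ (g + 2 * c) * (1 + 3 * q)) =
        ev (ι i₀) hI (v * lam ^ g * (1 + 3 * q)) * (-3) ^ c := by
      have e1 : v * lam ^ (g + 2 * c) * (1 + 3 * q) = v * lam ^ g * (1 + 3 * q) * (lam ^ 2) ^ c := by
        ring
      rw [e1, map_mul, map_pow, map_pow, hl]
    have h2 : ((-3 : PadicAlgCl 3)) ^ c = (3 * (1 + 3 * d)) ^ c * ((-1) ^ c * (1 + 3 * s)) := by
      rw [← es, ← mul_pow, ← mul_pow]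
      congr 1
      linear_combination 3 * ed
    rw [h1, h2, ← mul_assoc, e, ← hts]
    have h4 : ((-1 : PadicAlgCl 3) ^ c) ^ 3 = (-1) ^ c := by
      rw [← pow_mul, mul_comm, pow_mul]
      norm_num
    rw [mul_pow, h4]
    ring
  refine (fin_of (q := q) hi ι hv (V := (-1) ^ c * V) (t := t + s + 3 * (t * s))
    (mul_mem (pow_mem (neg_mem (one_mem _)) _) hV)
    (add_mem (add_mem ht hs) (mul_mem three_memK (mul_mem ht hs))) ?_ key).2
  refine add_le (add_le ht1 hs1) ?_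
  rw [norm_mul, norm_three']
  have := mul_le ht1 hs1
  linarith

theorem core33 (hD3 : (3 : Ei) ∣ D - 1) (hT : Tw hi (3 * D) u a)
    {v q : Ei} {g : ℕ} (hv : IsUnit v) (hK : Kc hi (v * lam ^ g * (1 + 3 * q)) h)
    (hS : St1 hi ι a h R) : v = 1 ∨ v = -1 := by
  have hI := iota_sq' hi ι
  have hI3 : ι i₀ ^ 3 = 1 := by linear_combination (ι i₀ - 1) * hI
  have h30 : (3 : PadicAlgCl 3) ≠ 0 := three_ne_zero
  obtain ⟨d₀, hd₀⟩ := hD3
  obtain ⟨d, hd⟩ : ∃ d, d = ev (ι i₀) hI d₀ := ⟨_, rfl⟩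
  have hdm : d ∈ Kl (ι i₀) := by rw [hd]; exact ev_mem hI d₀
  have hd1 : ‖d‖ ≤ 1 := by rw [hd]; exact ev_le hI d₀
  have hD0 := one_add_ne hd1
  have hU3 : ι u ^ 3 = 3 * (1 + 3 * d) := by
    rw [← map_pow, hT.cube, iota_ev' hi ι, hd]
    have e : D = 1 + 3 * d₀ := by rw [← hd₀]; ring
    rw [e, map_mul, map_add, map_one, map_mul, map_ofNat]
  have hU0 : ι u ≠ 0 := by
    intro h0
    rw [h0, zero_pow three_ne_zero] at hU3
    exact mul_ne_zero h30 hD0 hU3.symm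
  -- the cube root
  obtain ⟨s, hs⟩ := IsAlgClosed.exists_pow_nat_eq (ev i₀ hi (v * lam ^ g * (1 + 3 * q)))
    (n := 3) (by norm_num)
  have hZ : ι s ^ 3 = ev (ι i₀) hI (v * lam ^ g * (1 + 3 * q)) := by
    rw [← map_pow, hs, iota_ev' hi ι]
  have hts : ∀ (τ : Au 3) (σ : GK i₀), Cmp ι τ σ → τ (ι s) = ι i₀ ^ (h σ).val * ι s := by
    intro τ σ hc
    rw [hc, hK s hs σ, map_mul, map_pow]
  have hz0 : v * lam ^ g * (1 + 3 * q) ≠ 0 := by
    refine mul_ne_zero (mul_ne_zero hv.ne_zero (pow_ne_zero _ prime_lam.ne_zero)) ?_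
    intro h0
    have h1 : ev (ι i₀) hI (1 + 3 * q) = 0 := by rw [h0, map_zero]
    rw [map_add, map_one, map_mul, map_ofNat] at h1
    exact one_add_ne (ev_le hI q) h1
  have hZ0 : ι s ^ 3 ≠ 0 := by
    rw [hZ]
    exact ev_ne hI hz0
  have hs0 : ι s ≠ 0 := fun h0 => hZ0 (by rw [h0, zero_pow three_ne_zero])
  have hZm : ι s ^ 3 ∈ Kl (ι i₀) := by rw [hZ]; exact ev_mem hI _
  by_cases hQ0 : R - im (isE _) hI R = 0
  · -- `R` is a multiple of `T`
    obtain ⟨c, hc⟩ := ker_tt hI hQ0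
    have hm : ι s ∈ Kl (ι i₀) := by
      intro τ hτ
      obtain ⟨σ, hcm⟩ := exists_cmp ι τ hτ
      have h1 := hS τ σ hcm
      rw [hc, pm_tt, jj_tt, sub_self] at h1
      have h2 := tt_eq_zero.1 h1.symm
      rw [hts τ σ hcm, h2, ZMod.val_zero, pow_zero, one_mul]
    exact (fin_of (q := q) hi ι hv hm (zero_mem _) (by rw [norm_zero]; exact zero_le_one)
      (by rw [← hZ]; ring)).2
  · obtain ⟨x, y, hn, hR⟩ : ∃ x y, ∃ hn : (W0.baseChange (PadicAlgCl 3)).toAffine.Nonsingular x y,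
        R = .some x y hn := by
      rcases R with _ | ⟨x, y, hn⟩
      · exfalso
        apply hQ0
        show (0 : Pt (PadicAlgCl 3)) - im (isE _) hI 0 = 0
        rw [map_zero, sub_zero]
      · exact ⟨x, y, hn, rfl⟩
    have he := ((isE _).eqn x y).1 hn.1
    have hx : x ≠ 0 := by
      intro h0
      apply hQ0
      rw [hR, im_some, sub_eq_zero, Affine.Point.some.injEq]
      exact ⟨by rw [h0, mul_zero], rfl⟩
    obtain ⟨XQ, hnQ, eQ⟩ : ∃ XQ, ∃ hnQ : (W0.baseChange (PadicAlgCl 3)).toAffine.Nonsingular XQ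
        (gg (ι i₀) R ^ 3), R - im (isE _) hI R = .some XQ _ hnQ := by
      rw [hR]
      obtain ⟨XQ, hnQ, eQ, -⟩ := one_sub_im (isE _) hI hn hx
      exact ⟨XQ, hnQ, eQ⟩
    by_cases hG : gg (ι i₀) R = 0
    · -- `R - J R = T`
      have hlam := lam_ne (isE (PadicAlgCl 3)) hI
      have hy : y = ι i₀ ^ 2 := by
        rw [hR, gg_some, div_eq_zero_iff] at hG
        rcases hG with h1 | h1
        · exact sub_eq_zero.1 h1
        · exact absurd h1 (mul_ne_zero hlam hx)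
      have h0 := (isE (PadicAlgCl 3)).neg_nons hn
      have hR' : -R = .some x (-y - 1) h0 := by
        rw [hR]
        exact (isE _).neg_eq hn h0
      have hgg : gg (ι i₀) (-R) = 1 / x := by
        rw [hR', gg_some, hy, div_eq_div_iff (mul_ne_zero hlam hx) hx]
        linear_combination (-2 * x) * hI
      have hx3 : x ^ 3 = -1 := by
        rw [← he, hy]
        linear_combination (ι i₀ ^ 2 - ι i₀ + 1) * hI
      have hW3 : (ι u * gg (ι i₀) (-R)) ^ 3 = (-1) ^ 3 * (3 * (1 + 3 * d)) := by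
        rw [hgg, mul_pow, hU3, div_pow, hx3]
        ring
      have hW0 : ι u * gg (ι i₀) (-R) ≠ 0 := by
        rw [hgg]
        exact mul_ne_zero hU0 (div_ne_zero one_ne_zero hx)
      obtain ⟨W, hW⟩ : ∃ W, W = ι u * gg (ι i₀) (-R) := ⟨_, rfl⟩
      have hm : ι s / W ∈ Kl (ι i₀) := by
        rw [hW]
        intro τ hτ
        obtain ⟨σ, hcm⟩ := exists_cmp ι τ hτ
        rw [map_div₀, hts τ σ hcm, tau_g hT (st1_neg hS) hR' hx hcm]
        have h1 := pow_three hI (-h σ)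
        rw [neg_neg] at h1
        rw [← h1, mul_div_mul_left]
        exact pow_ne_zero _ (I_ne (isE (PadicAlgCl 3)) hI)
      rw [← hW] at hW3 hW0
      have hδ0 : 3 * (1 + 3 * d) ≠ 0 := mul_ne_zero h30 hD0
      refine fin_of33 (q := q) (g := g) hi ι hv (V := -(ι s / W) * (3 * (1 + 3 * d))) (t := 0)
        (mul_mem (neg_mem hm) (mul_mem three_memK
          (add_mem (one_mem _) (mul_mem three_memK hdm)))) (zero_mem _)
        (by rw [norm_zero]; exact zero_le_one) hdm hd1 2 ?_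
      have hd3 : (ι s / W) ^ 3 * ((-1) ^ 3 * (3 * (1 + 3 * d))) = ι s ^ 3 := by
        rw [← hW3, ← mul_pow, div_mul_cancel₀ _ hW0]
      rw [← hZ]
      linear_combination (-(3 * (1 + 3 * d)) ^ 2) * hd3
    · -- the general case
      have hW0 : ι u * gg (ι i₀) R ≠ 0 := mul_ne_zero hU0 hG
      have hm : ι s * (ι u * gg (ι i₀) R) ∈ Kl (ι i₀) := by
        intro τ hτ
        obtain ⟨σ, hcm⟩ := exists_cmp ι τ hτ
        rw [map_mul, hts τ σ hcm, tau_g hT hS hR hx hcm]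
        have h1 := pow_cancel hI (h σ)
        linear_combination (ι s * (ι u * gg (ι i₀) R)) * h1
      obtain ⟨W, hW⟩ : ∃ W, W = ι u * gg (ι i₀) R := ⟨_, rfl⟩
      rw [← hW] at hm hW0
      have hYm : W ^ 3 ∈ Kl (ι i₀) := by
        have e : W ^ 3 = (ι s * W) ^ 3 / ι s ^ 3 := by
          rw [mul_pow, mul_div_cancel_left₀ _ hZ0]
        rw [e]
        exact div_mem (pow_mem hm 3) hZm
      have hXm : ι u ^ 2 * XQ ∈ Kl (ι i₀) := tau_X hT hS eQ
      have heq := ((isE _).eqn _ _).1 hnQ.1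
      have heY : (W ^ 3) ^ 2 + 3 * (1 + 3 * d) * W ^ 3 = (ι u ^ 2 * XQ) ^ 3 := by
        rw [hW, ← hU3]
        linear_combination (ι u ^ 6) * heq
      obtain ⟨c, V, hV, hV0, t, ht, ht1, eY⟩ := ord_cube33 hI hdm hd1 hXm hYm
        (pow_ne_zero 3 hW0) heY
      obtain ⟨t', ht', ht1', et⟩ := inv_exK ht ht1
      refine fin_of33 (q := q) (g := g) hi ι hv (V := ι s * W / V) (t := t') (div_mem hm hV) ht' ht1'
        hdm hd1 c ?_
      have hV3 : V ^ 3 ≠ 0 := pow_ne_zero 3 hV0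
      have e3 : (ι s * W / V) ^ 3 = ι s ^ 3 * (3 * (1 + 3 * d)) ^ c * (1 + 3 * t) := by
        rw [div_pow, div_eq_iff hV3]
        linear_combination (ι s ^ 3) * eY
      rw [← hZ, e3, mul_assoc (ι s ^ 3 * (3 * (1 + 3 * d)) ^ c), et, mul_one]

end final

/-- **CT3-LOC33** -/
theorem t_LOC33 : Pool.Agent.E8helper20.CT3.S_LOC33 := by
  intro i₀ hi D hD3 u a hT h v q g hv hK hF ι R hS
  exact core33 hD3 hT hv hK hS

end Pool.Agent.E8helper87.CT3
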